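import Mathlib.Topology.MetricSpace.GromovHausdorff
import Mathlib.Topology.MetricSpace.Basic
import Mathlib.Analysis.Normed.Field.Lemmas
import Mathlib.Tactic

/-!
# The geodesic hull of a Gromov-Hausdorff geodesic is not unique

The curve `γ(t)` is `t` times the three point space `a, b, c` with `d(a,b) = 2` and
`d(a,c) = d(b,c) = 1`.  It is a Gromov-Hausdorff geodesic of length `1`.

* In the segment `X = [-1,1]` it is realised by `{-t, 0, t}`; the union is all of `X`.
* In the planar `T`-shape `Y = [-1,1] × {0} ∪ {0} × [0,1]` with the maximum metric it is realised by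
  `{(-t,0), (t,0), (0,t)}`; the union is all of `Y`.

A segment is not isometric to the `T`-shape.
-/

open GromovHausdorff Set Metric

namespace Pool.Agent.Results.MP_457a5a_gt.HullNotUnique

/-- The parameter interval `[0,1]`. -/
abbrev I : Type := Set.Icc (0 : ℝ) 1

/-- The initial parameter. -/
def i0 : I := ⟨0, by norm_num, by norm_num⟩

/-- The final parameter. -/
def i1 : I := ⟨1, by norm_num, by norm_num⟩

/-- A Gromov-Hausdorff geodesic: a curve `γ : [0,1] → M` in the Gromov-Hausdorff space of (nonempty)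
compact metric spaces up to isometry with
`d_GH (γ s) (γ t) = |s - t| * d_GH (γ 0) (γ 1)`. -/
def IsGHGeodesic (γ : I → GHSpace) : Prop :=
  ∀ s t : I, dist (γ s) (γ t) = |(s : ℝ) - t| * dist (γ i0) (γ i1)

/-- A Hausdorff realization of `γ` in the metric space `X`: isometric embeddings `φ t` of (a
representative of) `γ t` in `X` such that the Hausdorff distances of the images are the
Gromov-Hausdorff distances. -/
def IsRealization (γ : I → GHSpace) {X : Type} [MetricSpace X]
    (φ : ∀ t : I, (γ t).Rep → X) : Prop :=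
  (∀ t, Isometry (φ t)) ∧
    ∀ s t : I, Metric.hausdorffDist (Set.range (φ s)) (Set.range (φ t)) = dist (γ s) (γ t)

/-- The union of the images of a realization, with the metric induced from `X`. -/
def hull (γ : I → GHSpace) {X : Type} [MetricSpace X] (φ : ∀ t : I, (γ t).Rep → X) : Set X :=
  ⋃ t, Set.range (φ t)

/-! ### The three point spaces -/

/-- The three points `-t, 0, t` of the line. -/
def S (t : ℝ) : Set ℝ := {-t, 0, t}

lemma S_finite (t : ℝ) : (S t).Finite := by unfold S; exact Set.toFinite _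

instance (t : ℝ) : CompactSpace (S t) := isCompact_iff_compactSpace.1 (S_finite t).isCompact

instance (t : ℝ) : Nonempty (S t) := ⟨⟨0, by simp [S]⟩⟩

lemma dist_le_of_mem {t x y : ℝ} (ht : 0 ≤ t) (hx : x ∈ S t) (hy : y ∈ S t) : dist x y ≤ 2 * t := by
  simp only [S, mem_insert_iff, mem_singleton_iff] at hx hy
  rw [Real.dist_eq, abs_le]
  rcases hx with rfl | rfl | rfl <;> rcases hy with rfl | rfl | rfl <;> constructor <;> linarith

/-- The curve. -/
noncomputable def γ (t : I) : GHSpace := toGHSpace (S (t : ℝ))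

/-- The chosen representative is isometric with the three points. -/
lemma exists_iso (t : I) : Nonempty ((γ t).Rep ≃ᵢ S (t : ℝ)) := by
  have h : toGHSpace (γ t).Rep = toGHSpace (S (t : ℝ)) := (γ t).toGHSpace_rep
  exact toGHSpace_eq_toGHSpace_iff_isometryEquiv.1 h

noncomputable def e (t : I) : (γ t).Rep ≃ᵢ S (t : ℝ) := (exists_iso t).some

/-- Points move with speed at most one, general lemma. -/
lemma hausdorffDist_le_aux {X : Type} [MetricSpace X] {T : Type} {f g : T → X} {r : ℝ}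
    (hr : 0 ≤ r) (h : ∀ x, dist (f x) (g x) ≤ r) :
    Metric.hausdorffDist (Set.range f) (Set.range g) ≤ r := by
  apply Metric.hausdorffDist_le_of_mem_dist hr
  · rintro _ ⟨x, rfl⟩; exact ⟨g x, ⟨x, rfl⟩, h x⟩
  · rintro _ ⟨x, rfl⟩; exact ⟨f x, ⟨x, rfl⟩, by rw [dist_comm]; exact h x⟩

/-- The lower bound for the Gromov-Hausdorff distance by the diameters. -/
lemma ghDist_ge {s t : ℝ} (hs : 0 ≤ s) (hst : s ≤ t) : t - s ≤ ghDist (S s) (S t) := by
  set Φ := optimalGHInjl (S s) (S t) with hΦ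
  set Ψ := optimalGHInjr (S s) (S t) with hΨ
  have hiΦ : Isometry Φ := isometry_optimalGHInjl (S s) (S t)
  have hiΨ : Isometry Ψ := isometry_optimalGHInjr (S s) (S t)
  have hd : hausdorffDist (range Φ) (range Ψ) = ghDist (S s) (S t) := hausdorffDist_optimal
  rw [← hd]
  by_contra hlt
  push Not at hlt
  have hfin : hausdorffEDist (range Φ) (range Ψ) ≠ ⊤ := by
    apply Metric.hausdorffEDist_ne_top_of_nonempty_of_bounded
    · exact range_nonempty _
    · exact range_nonempty _
    · exact (isCompact_range hiΦ.continuous).isBounded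
    · exact (isCompact_range hiΨ.continuous).isBounded
  have h1 : ∃ y ∈ range Φ, dist y (Ψ ⟨-t, by simp [S]⟩) < t - s := by
    have := Metric.exists_dist_lt_of_hausdorffDist_lt' (mem_range_self (⟨-t, by simp [S]⟩ : S t))
      hlt hfin
    exact this
  have h2 : ∃ y ∈ range Φ, dist y (Ψ ⟨t, by simp [S]⟩) < t - s := by
    have := Metric.exists_dist_lt_of_hausdorffDist_lt' (mem_range_self (⟨t, by simp [S]⟩ : S t))
      hlt hfin
    exact this
  obtain ⟨_, ⟨y1, rfl⟩, h1⟩ := h1
  obtain ⟨_, ⟨y2, rfl⟩, h2⟩ := h2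
  have h3 : dist (Ψ ⟨-t, by simp [S]⟩) (Ψ ⟨t, by simp [S]⟩) = 2 * t := by
    rw [hiΨ.dist_eq, Subtype.dist_eq, Real.dist_eq, abs_of_nonpos (by linarith)]
    ring
  have h4 : dist (Φ y1) (Φ y2) ≤ 2 * s := by
    rw [hiΦ.dist_eq, Subtype.dist_eq]
    exact dist_le_of_mem hs y1.2 y2.2
  have h5 : dist (Ψ ⟨-t, by simp [S]⟩) (Ψ ⟨t, by simp [S]⟩) ≤
      dist (Φ y1) (Ψ ⟨-t, by simp [S]⟩) + dist (Φ y1) (Φ y2) + dist (Φ y2) (Ψ ⟨t, by simp [S]⟩) := by
    have := dist_triangle4 (Ψ ⟨-t, by simp [S]⟩) (Φ y1) (Φ y2) (Ψ ⟨t, by simp [S]⟩)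
    rw [dist_comm (Ψ ⟨-t, by simp [S]⟩) (Φ y1)] at this
    exact this
  linarith

/-! ### The realization in the segment -/

/-- The segment `[-1,1]`. -/
abbrev X : Type := Set.Icc (-1 : ℝ) 1

/-- The point of the segment carrying a point of the model. -/
lemma mem_X (t : I) (x : S (t : ℝ)) : (x : ℝ) ∈ Set.Icc (-1 : ℝ) 1 := by
  obtain ⟨x, hx⟩ := x
  obtain ⟨t, ht0, ht1⟩ := t
  simp only [S, mem_insert_iff, mem_singleton_iff] at hx
  simp only [mem_Icc]
  rcases hx with rfl | rfl | rfl <;> constructor <;> linarith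

/-- The embedding of the model in the segment. -/
def f (t : I) (x : S (t : ℝ)) : X := ⟨x, mem_X t x⟩

lemma f_isometry (t : I) : Isometry (f t) := Isometry.of_dist_eq fun _ _ => rfl

/-- The realization in the segment. -/
noncomputable def φ (t : I) (x : (γ t).Rep) : X := f t (e t x)

lemma φ_isometry (t : I) : Isometry (φ t) := (f_isometry t).comp (e t).isometry

/-- The common parametrization of the images in the segment by three labels. -/
def pX (t : I) (k : Fin 3) : X :=
  ⟨if k = 0 then -(t : ℝ) else if k = 1 then 0 else t, by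
    obtain ⟨t, ht0, ht1⟩ := t
    simp only [mem_Icc]
    split_ifs <;> constructor <;> linarith⟩

lemma range_f (t : I) : range (f t) = range (pX t) := by
  ext x
  constructor
  · rintro ⟨⟨y, hy⟩, rfl⟩
    simp only [S, mem_insert_iff, mem_singleton_iff] at hy
    rcases hy with h | h | h
    · exact ⟨0, by simp [pX, f, h]⟩
    · exact ⟨1, by simp [pX, f, h]⟩
    · exact ⟨2, by simp [pX, f, h]⟩
  · rintro ⟨k, rfl⟩
    refine ⟨⟨(pX t k : ℝ), ?_⟩, rfl⟩
    simp only [pX, S, mem_insert_iff, mem_singleton_iff]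
    split_ifs <;> simp

lemma range_φ (t : I) : range (φ t) = range (pX t) := by
  rw [← range_f]
  have : φ t = f t ∘ e t := rfl
  rw [this, (e t).surjective.range_comp]

lemma pX_dist (s t : I) (k : Fin 3) : dist (pX s k) (pX t k) ≤ |(s : ℝ) - t| := by
  rw [Subtype.dist_eq, Real.dist_eq]
  simp only [pX]
  split_ifs
  · rw [show -(s : ℝ) - -(t : ℝ) = -((s : ℝ) - t) by ring, abs_neg]
  · simp
  · exact le_rfl

/-! ### The Gromov-Hausdorff distances -/

lemma dist_toGH (A B : Type) [MetricSpace A] [CompactSpace A] [Nonempty A] [MetricSpace B]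
    [CompactSpace B] [Nonempty B] : dist (toGHSpace A) (toGHSpace B) = ghDist A B := rfl

lemma dist_γ_le (s t : I) : dist (γ s) (γ t) ≤ |(s : ℝ) - t| := by
  have h1 : dist (γ s) (γ t) = ghDist (S (s : ℝ)) (S (t : ℝ)) := rfl
  rw [h1]
  refine (ghDist_le_hausdorffDist (f_isometry s) (f_isometry t)).trans ?_
  rw [range_f, range_f]
  exact hausdorffDist_le_aux (abs_nonneg _) (pX_dist s t)

lemma dist_γ (s t : I) : dist (γ s) (γ t) = |(s : ℝ) - t| := by
  apply le_antisymm (dist_γ_le s t)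
  rcases le_total (s : ℝ) t with h | h
  · rw [abs_of_nonpos (by linarith), neg_sub]
    exact ghDist_ge s.2.1 h
  · rw [abs_of_nonneg (by linarith), dist_comm]
    exact ghDist_ge t.2.1 h

lemma γ_geodesic : IsGHGeodesic γ := by
  intro s t
  rw [dist_γ, dist_γ]
  simp [i0, i1]

lemma hd_eq_of {Z : Type} [MetricSpace Z] [CompactSpace Z] (χ : ∀ t : I, (γ t).Rep → Z)
    (hχ : ∀ t, Isometry (χ t)) (s t : I)
    (h : Metric.hausdorffDist (range (χ s)) (range (χ t)) ≤ |(s : ℝ) - t|) :
    Metric.hausdorffDist (range (χ s)) (range (χ t)) = dist (γ s) (γ t) := by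
  apply le_antisymm
  · rw [dist_γ]; exact h
  · rw [dist_ghDist]
    exact ghDist_le_hausdorffDist (hχ s) (hχ t)

lemma φ_real : IsRealization γ φ := by
  refine ⟨φ_isometry, fun s t => hd_eq_of φ φ_isometry s t ?_⟩
  rw [range_φ, range_φ]
  exact hausdorffDist_le_aux (abs_nonneg _) (pX_dist s t)

/-! ### The realization in the T-shape -/

/-- The `T`-shape in the plane with the maximum metric. -/
def T : Set (ℝ × ℝ) := {p | (p.1 ∈ Set.Icc (-1 : ℝ) 1 ∧ p.2 = 0) ∨ (p.1 = 0 ∧ p.2 ∈ Set.Icc (0 : ℝ) 1)}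

/-- The `T`-shape as a metric space, with the maximum metric of the plane. -/
abbrev Y : Type := T

lemma T_compact : IsCompact T := by
  have h1 : T = (Set.Icc (-1 : ℝ) 1 ×ˢ {0}) ∪ ({0} ×ˢ Set.Icc (0 : ℝ) 1) := by
    ext p
    simp [T, Set.mem_prod]
  rw [h1]
  exact (isCompact_Icc.prod isCompact_singleton).union (isCompact_singleton.prod isCompact_Icc)

instance : CompactSpace Y := isCompact_iff_compactSpace.1 T_compact

/-- The three labelled points in the `T`-shape: the label `0` for `(-t,0)`, `1` for `(0,t)`, `2` for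
`(t,0)`. -/
def pY (t : I) (k : Fin 3) : Y :=
  ⟨if k = 0 then (-(t : ℝ), 0) else if k = 1 then (0, (t : ℝ)) else ((t : ℝ), 0), by
    obtain ⟨t, ht0, ht1⟩ := t
    simp only [T, mem_setOf_eq, mem_Icc]
    split_ifs
    · left; exact ⟨⟨by simp; linarith, by simp; linarith⟩, rfl⟩
    · right; exact ⟨rfl, ⟨by simpa using ht0, by simpa using ht1⟩⟩
    · left; exact ⟨⟨by simp; linarith, by simp; linarith⟩, rfl⟩⟩

/-- The embedding of the model in the `T`-shape, given on the three points. -/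
noncomputable def g (t : I) (x : S (t : ℝ)) : Y :=
  if (x : ℝ) = -(t : ℝ) then pY t 0 else if (x : ℝ) = 0 then pY t 1 else pY t 2

lemma cases_S (t : I) (x : S (t : ℝ)) :
    ((x : ℝ) = -(t : ℝ)) ∨ ((x : ℝ) = 0) ∨ ((x : ℝ) = t) := by
  have := x.2
  simpa only [S, mem_insert_iff, mem_singleton_iff] using this

lemma g_neg (t : I) (x : S (t : ℝ)) (h : (x : ℝ) = -(t : ℝ)) : g t x = pY t 0 := by
  simp [g, h]

lemma g_zero (t : I) (x : S (t : ℝ)) (h : (x : ℝ) = 0) : g t x = pY t 1 := by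
  unfold g
  split_ifs with h1
  · have : (t : ℝ) = 0 := by linarith
    apply Subtype.ext
    simp [pY, this]
  · rfl

lemma g_pos (t : I) (x : S (t : ℝ)) (h : (x : ℝ) = t) : g t x = pY t 2 := by
  unfold g
  split_ifs with h1 h2
  · have : (t : ℝ) = 0 := by linarith
    apply Subtype.ext
    simp [pY, this]
  · have : (t : ℝ) = 0 := by linarith
    apply Subtype.ext
    simp [pY, this]
  · rfl

lemma g_isometry (t : I) : Isometry (g t) := by
  have ht : (0 : ℝ) ≤ t := t.2.1
  refine Isometry.of_dist_eq fun x y => ?_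
  rw [Subtype.dist_eq x y, Real.dist_eq]
  rcases cases_S t x with hx | hx | hx <;> rcases cases_S t y with hy | hy | hy
  · rw [g_neg t x hx, g_neg t y hy, hx, hy]; simp
  · rw [g_neg t x hx, g_zero t y hy, hx, hy, Subtype.dist_eq]
    simp [pY, Prod.dist_eq]
  · rw [g_neg t x hx, g_pos t y hy, hx, hy, Subtype.dist_eq]
    simp [pY, Prod.dist_eq, Real.dist_eq]
  · rw [g_zero t x hx, g_neg t y hy, hx, hy, Subtype.dist_eq]
    simp [pY, Prod.dist_eq]
  · rw [g_zero t x hx, g_zero t y hy, hx, hy]; simp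
  · rw [g_zero t x hx, g_pos t y hy, hx, hy, Subtype.dist_eq]
    simp [pY, Prod.dist_eq]
  · rw [g_pos t x hx, g_neg t y hy, hx, hy, Subtype.dist_eq]
    simp [pY, Prod.dist_eq, Real.dist_eq]
  · rw [g_pos t x hx, g_zero t y hy, hx, hy, Subtype.dist_eq]
    simp [pY, Prod.dist_eq]
  · rw [g_pos t x hx, g_pos t y hy, hx, hy]; simp

/-- The realization in the `T`-shape. -/
noncomputable def ψ (t : I) (x : (γ t).Rep) : Y := g t (e t x)

lemma ψ_isometry (t : I) : Isometry (ψ t) := (g_isometry t).comp (e t).isometry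

lemma range_g (t : I) : range (g t) = range (pY t) := by
  ext x
  constructor
  · rintro ⟨y, rfl⟩
    rcases cases_S t y with h | h | h
    · exact ⟨0, (g_neg t y h).symm⟩
    · exact ⟨1, (g_zero t y h).symm⟩
    · exact ⟨2, (g_pos t y h).symm⟩
  · rintro ⟨k, rfl⟩
    fin_cases k
    · exact ⟨⟨-(t : ℝ), by simp [S]⟩, g_neg t _ rfl⟩
    · exact ⟨⟨0, by simp [S]⟩, g_zero t _ rfl⟩
    · exact ⟨⟨(t : ℝ), by simp [S]⟩, g_pos t _ rfl⟩

lemma range_ψ (t : I) : range (ψ t) = range (pY t) := by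
  rw [← range_g]
  have : ψ t = g t ∘ e t := rfl
  rw [this, (e t).surjective.range_comp]

lemma pY_dist (s t : I) (k : Fin 3) : dist (pY s k) (pY t k) ≤ |(s : ℝ) - t| := by
  rw [Subtype.dist_eq]
  simp only [pY]
  split_ifs
  · rw [Prod.dist_eq, Real.dist_eq, Real.dist_eq]
    simp only [sub_self, abs_zero]
    rw [show -(s : ℝ) - -(t : ℝ) = -((s : ℝ) - t) by ring, abs_neg]
    exact max_le le_rfl (abs_nonneg _)
  · rw [Prod.dist_eq, Real.dist_eq, Real.dist_eq]
    simp only [sub_self, abs_zero]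
    exact max_le (abs_nonneg _) le_rfl
  · rw [Prod.dist_eq, Real.dist_eq, Real.dist_eq]
    simp only [sub_self, abs_zero]
    exact max_le le_rfl (abs_nonneg _)

lemma ψ_real : IsRealization γ ψ := by
  refine ⟨ψ_isometry, fun s t => hd_eq_of ψ ψ_isometry s t ?_⟩
  rw [range_ψ, range_ψ]
  exact hausdorffDist_le_aux (abs_nonneg _) (pY_dist s t)

/-! ### The hulls -/

lemma hull_φ : hull γ φ = univ := by
  apply eq_univ_of_forall
  rintro ⟨x, hx1, hx2⟩
  simp only [hull, mem_iUnion, range_φ]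
  rcases le_total 0 x with h | h
  · exact ⟨⟨x, h, hx2⟩, 2, by simp [pX]⟩
  · exact ⟨⟨-x, by linarith, by linarith⟩, 0, by simp [pX]⟩

lemma hull_ψ : hull γ ψ = univ := by
  apply eq_univ_of_forall
  rintro ⟨⟨x, y⟩, hxy⟩
  simp only [hull, mem_iUnion, range_ψ]
  have hxy' := hxy
  simp only [T, mem_setOf_eq, mem_Icc] at hxy'
  rcases hxy' with ⟨⟨h1, h2⟩, rfl⟩ | ⟨rfl, h1, h2⟩
  · rcases le_total 0 x with h | h
    · exact ⟨⟨x, h, h2⟩, 2, by simp [pY]⟩
    · exact ⟨⟨-x, by linarith, by linarith⟩, 0, by simp [pY]⟩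
  · exact ⟨⟨y, h1, h2⟩, 1, by simp [pY]⟩

lemma not_iso {Z : Set X} (F : Y → Z) (hF : Isometry F) : False := by
  let o : Y := ⟨(0, 0), by simp [T]⟩
  let a : Y := ⟨(-1, 0), by simp [T]⟩
  let b : Y := ⟨(1, 0), by simp [T]⟩
  let c : Y := ⟨(0, 1), by simp [T]⟩
  have hoa := hF.dist_eq o a
  have hob := hF.dist_eq o b
  have hca := hF.dist_eq c a
  have hcb := hF.dist_eq c b
  have hab := hF.dist_eq a b
  have hoc := hF.dist_eq o c
  have e1 : dist o a = 1 := by simp [o, a, Subtype.dist_eq, Prod.dist_eq]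
  have e2 : dist o b = 1 := by simp [o, b, Subtype.dist_eq, Prod.dist_eq]
  have e3 : dist c a = 1 := by simp [c, a, Subtype.dist_eq, Prod.dist_eq]
  have e4 : dist c b = 1 := by simp [c, b, Subtype.dist_eq, Prod.dist_eq]
  have e5 : dist a b = 2 := by
    simp [a, b, Subtype.dist_eq, Prod.dist_eq, Real.dist_eq]; norm_num
  have e6 : dist o c = 1 := by simp [o, c, Subtype.dist_eq, Prod.dist_eq]
  rw [e1] at hoa
  rw [e2] at hob
  rw [e3] at hca
  rw [e4] at hcb
  rw [e5] at hab
  rw [e6] at hoc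
  simp only [Subtype.dist_eq, Real.dist_eq] at hoa hob hca hcb hab hoc
  generalize ((F o : X) : ℝ) = O at *
  generalize ((F a : X) : ℝ) = A at *
  generalize ((F b : X) : ℝ) = B at *
  generalize ((F c : X) : ℝ) = C at *
  rcases abs_cases (O - A) with h1 | h1 <;> rcases abs_cases (O - B) with h2 | h2 <;>
  rcases abs_cases (C - A) with h3 | h3 <;> rcases abs_cases (C - B) with h4 | h4 <;>
  rcases abs_cases (A - B) with h5 | h5 <;> rcases abs_cases (O - C) with h6 | h6 <;> linarith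

/-- The geodesic hull is not unique: there are a nonconstant Gromov-Hausdorff geodesic `γ`,
non-isometric compact metric spaces `X`, `Y` and Hausdorff realizations of `γ` in `X` and in `Y`
whose unions are not isometric. -/
theorem result : ∃ (γ : I → GHSpace) (X Y : Type) (_ : MetricSpace X) (_ : CompactSpace X)
    (_ : MetricSpace Y) (_ : CompactSpace Y)
    (φ : ∀ t : I, (γ t).Rep → X) (ψ : ∀ t : I, (γ t).Rep → Y),
    IsGHGeodesic γ ∧ γ i0 ≠ γ i1 ∧ IsRealization γ φ ∧ IsRealization γ ψ ∧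
      IsEmpty (X ≃ᵢ Y) ∧ IsEmpty (hull γ φ ≃ᵢ hull γ ψ) := by
  refine ⟨γ, X, Y, inferInstance, inferInstance, inferInstance, inferInstance, φ, ψ, γ_geodesic,
    ?_, φ_real, ψ_real, ⟨fun E => ?_⟩, ⟨fun E => ?_⟩⟩
  · intro h
    have h1 := dist_γ i0 i1
    rw [h, dist_self] at h1
    simp [i0, i1] at h1
  · refine not_iso (Z := univ) (fun y => ⟨E.symm y, mem_univ _⟩) ?_
    exact Isometry.of_dist_eq fun x y => by
      rw [Subtype.dist_eq]; exact E.symm.isometry.dist_eq x y
  · refine not_iso (Z := hull γ φ) (fun y => E.symm ⟨y, by rw [hull_ψ]; exact mem_univ _⟩) ?_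
    exact Isometry.of_dist_eq fun x y => by
      rw [E.symm.isometry.dist_eq]; rfl

end Pool.Agent.Results.MP_457a5a_gt.HullNotUnique
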